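import Pool.Agent.L0h17.WT.Stm2
import Mathlib.RingTheory.MvPowerSeries.Derivative
import Mathlib.RingTheory.MvPowerSeries.Inverse

set_option autoImplicit false

/-! # Restriction of `F(x) G(y)` to a point with `G(y) ≠ 0` (board WT, module RES; helper72)

The subspace for `F(x) G(y)` is the space of the power series with all coefficients in `U`; it is
stable under the multiplication by power series over `ℂ`. -/

namespace Pool.Agent.L0h72.WT

open Pool.Agent.N103.V Pool.Agent.N103 Pool.Agent.L0h17.WT

section Aux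

variable {τ L : Type} [CommRing L] [Algebra ℂ L]

/-- a derivation acts on the coefficients -/
noncomputable def cD (d : Derivation ℂ L L) :
    Derivation ℂ (MvPowerSeries τ L) (MvPowerSeries τ L) :=
  Derivation.mk'
    { toFun := fun x => (fun n => d (MvPowerSeries.coeff n x) : (τ →₀ ℕ) → L)
      map_add' := by
        intro x y
        ext n
        exact map_add d _ _
      map_smul' := by
        intro c x
        ext n
        exact d.map_smul c _ }
    (by
      classical
      intro x y
      ext n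
      change d (MvPowerSeries.coeff n (x * y)) = MvPowerSeries.coeff n (x * _ + y * _)
      rw [map_add, MvPowerSeries.coeff_mul, MvPowerSeries.coeff_mul, mul_comm y,
        MvPowerSeries.coeff_mul, map_sum, ← Finset.sum_add_distrib]
      refine Finset.sum_congr rfl fun p _ => ?_
      rw [Derivation.leibniz, smul_eq_mul, smul_eq_mul, mul_comm (MvPowerSeries.coeff p.2 y)]
      rfl)

theorem coeff_cD (d : Derivation ℂ L L) (n : τ →₀ ℕ) (x : MvPowerSeries τ L) :
    MvPowerSeries.coeff n (cD d x) = d (MvPowerSeries.coeff n x) := rfl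

/-- the series with coefficients in `U` -/
def Us (τ : Type) (U : Submodule ℂ L) : Submodule ℂ (MvPowerSeries τ L) where
  carrier := {x | ∀ n, MvPowerSeries.coeff n x ∈ U}
  add_mem' := by
    intro x y hx hy n
    rw [map_add]
    exact U.add_mem (hx n) (hy n)
  zero_mem' := by
    intro n
    rw [map_zero]
    exact U.zero_mem
  smul_mem' := by
    intro c x hx n
    exact U.smul_mem c (hx n)

theorem mem_Us {U : Submodule ℂ L} {x : MvPowerSeries τ L} :
    x ∈ Us τ U ↔ ∀ n, MvPowerSeries.coeff n x ∈ U := Iff.rfl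

/-- the power series over `ℂ` -/
noncomputable def mc (c : MvPowerSeries τ ℂ) : MvPowerSeries τ L :=
  MvPowerSeries.map (algebraMap ℂ L) c

theorem mc_mul_mem {U : Submodule ℂ L} (c : MvPowerSeries τ ℂ) {x : MvPowerSeries τ L}
    (hx : x ∈ Us τ U) : mc c * x ∈ Us τ U := by
  classical
  intro n
  rw [MvPowerSeries.coeff_mul]
  refine U.sum_mem fun p _ => ?_
  rw [mc, MvPowerSeries.coeff_map, ← Algebra.smul_def]
  exact U.smul_mem _ (hx _)

theorem C_mem {U : Submodule ℂ L} {l : L} (hl : l ∈ U) :
    (MvPowerSeries.C l : MvPowerSeries τ L) ∈ Us τ U := by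
  classical
  intro n
  rw [MvPowerSeries.coeff_C]
  split_ifs
  · exact hl
  · exact U.zero_mem

theorem algebraMap_eq (c : ℂ) : algebraMap ℂ (MvPowerSeries τ L) c
    = MvPowerSeries.C (algebraMap ℂ L c) := by
  rw [MvPowerSeries.algebraMap_apply]

theorem cD_mc (d : Derivation ℂ L L) (c : MvPowerSeries τ ℂ) : cD d (mc c) = 0 := by
  ext n
  rw [coeff_cD, mc, MvPowerSeries.coeff_map, Derivation.map_algebraMap, map_zero]

theorem cD_C (d : Derivation ℂ L L) (l : L) :
    cD d (MvPowerSeries.C l : MvPowerSeries τ L) = MvPowerSeries.C (d l) := by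
  classical
  ext n
  rw [coeff_cD, MvPowerSeries.coeff_C, MvPowerSeries.coeff_C]
  split_ifs
  · rfl
  · exact map_zero d

/-- a homomorphism commutes with derivations if it does so on the variables -/
theorem comm_of_X {ι A : Type} [CommRing A] [Algebra ℂ A] (φ : MvPolynomial ι ℂ →ₐ[ℂ] A)
    (d : Derivation ℂ A A) (i : ι)
    (h : ∀ j, d (φ (MvPolynomial.X j)) = φ (MvPolynomial.pderiv i (MvPolynomial.X j)))
    (p : MvPolynomial ι ℂ) : d (φ p) = φ (MvPolynomial.pderiv i p) := by
  induction p using MvPolynomial.induction_on with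
  | C a =>
    have h1 : φ (MvPolynomial.C a) = algebraMap ℂ A a := φ.commutes a
    rw [h1, Derivation.map_algebraMap, MvPolynomial.pderiv_C, map_zero]
  | add p q hp hq => rw [map_add, map_add, map_add, hp, hq, map_add]
  | mul_X p k hp =>
    rw [map_mul, Derivation.leibniz, hp, h, Derivation.leibniz, smul_eq_mul, smul_eq_mul,
      smul_eq_mul, smul_eq_mul, map_add, map_mul, map_mul]

end Aux

section Main

variable {σ τ L : Type} [CommRing L] [Algebra ℂ L] (φ : MvPolynomial σ ℂ →ₐ[ℂ] L) (y : τ → ℂ)

/-- the homomorphism `x ↦ φ x`, `y ↦ y + t` -/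
noncomputable def ph : MvPolynomial (σ ⊕ τ) ℂ →ₐ[ℂ] MvPowerSeries τ L :=
  MvPolynomial.aeval (Sum.elim (fun i => MvPowerSeries.C (φ (MvPolynomial.X i)))
    (fun k => MvPowerSeries.C (algebraMap ℂ L (y k)) + MvPowerSeries.X k))

/-- the expansion at `y` -/
noncomputable def sh : MvPolynomial τ ℂ →ₐ[ℂ] MvPowerSeries τ ℂ :=
  MvPolynomial.aeval (fun k => MvPowerSeries.C (y k) + MvPowerSeries.X k)

theorem ph_inl (f : MvPolynomial σ ℂ) :
    ph φ y (MvPolynomial.rename Sum.inl f) = MvPowerSeries.C (φ f) := by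
  induction f using MvPolynomial.induction_on with
  | C a =>
    rw [MvPolynomial.rename_C]
    have h1 : φ (MvPolynomial.C a) = algebraMap ℂ L a := φ.commutes a
    rw [h1]
    exact ((ph φ y).commutes a).trans (algebraMap_eq a)
  | add p q hp hq => rw [map_add, map_add, hp, hq, map_add, map_add]
  | mul_X p k hp =>
    rw [map_mul, map_mul, hp, MvPolynomial.rename_X, map_mul, map_mul]
    congr 1
    rw [ph, MvPolynomial.aeval_X]
    rfl

theorem ph_inr (g : MvPolynomial τ ℂ) :
    ph φ y (MvPolynomial.rename Sum.inr g) = mc (sh y g) := by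
  induction g using MvPolynomial.induction_on with
  | C a =>
    rw [MvPolynomial.rename_C]
    have h1 : sh y (MvPolynomial.C a) = MvPowerSeries.C a := (sh y).commutes a
    rw [h1, mc, MvPowerSeries.map_C]
    exact ((ph φ y).commutes a).trans (algebraMap_eq a)
  | add p q hp hq => rw [map_add, map_add, hp, hq, map_add, mc, mc, mc, map_add]
  | mul_X p k hp =>
    rw [map_mul, map_mul, hp, MvPolynomial.rename_X, map_mul, mc, mc, map_mul]
    congr 1
    rw [ph, MvPolynomial.aeval_X, sh, MvPolynomial.aeval_X, map_add, MvPowerSeries.map_C,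
      MvPowerSeries.map_X]
    rfl

theorem cc_sh (g : MvPolynomial τ ℂ) :
    MvPowerSeries.constantCoeff (sh y g) = MvPolynomial.eval y g := by
  induction g using MvPolynomial.induction_on with
  | C a =>
    have h1 : sh y (MvPolynomial.C a) = MvPowerSeries.C a := (sh y).commutes a
    rw [h1, MvPowerSeries.constantCoeff_C, MvPolynomial.eval_C]
  | add p q hp hq => rw [map_add, map_add, hp, hq, map_add]
  | mul_X p k hp =>
    rw [map_mul, map_mul, hp, map_mul, sh, MvPolynomial.aeval_X, map_add,
      MvPowerSeries.constantCoeff_C, MvPowerSeries.constantCoeff_X, add_zero, MvPolynomial.eval_X]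

theorem cc_ph (H : MvPolynomial (σ ⊕ τ) ℂ) :
    MvPowerSeries.constantCoeff (ph φ y H)
      = φ (MvPolynomial.aeval (Sum.elim MvPolynomial.X (fun k => MvPolynomial.C (y k))) H) := by
  induction H using MvPolynomial.induction_on with
  | C a =>
    have h1 : ph φ y (MvPolynomial.C a) = MvPowerSeries.C (algebraMap ℂ L a) :=
      ((ph φ y).commutes a).trans (algebraMap_eq a)
    have h2 : (MvPolynomial.aeval (Sum.elim MvPolynomial.X (fun k => MvPolynomial.C (y k)))
      (MvPolynomial.C a : MvPolynomial (σ ⊕ τ) ℂ) : MvPolynomial σ ℂ) = MvPolynomial.C a :=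
      AlgHom.commutes _ a
    rw [h1, MvPowerSeries.constantCoeff_C, h2]
    exact (φ.commutes a).symm
  | add p q hp hq => rw [map_add, map_add, hp, hq, map_add, map_add]
  | mul_X p k hp =>
    rw [map_mul, map_mul, hp, map_mul, map_mul]
    congr 1
    rw [ph, MvPolynomial.aeval_X, MvPolynomial.aeval_X]
    rcases k with i | k
    · exact MvPowerSeries.constantCoeff_C _
    · have h1 : φ (MvPolynomial.C (y k)) = algebraMap ℂ L (y k) := φ.commutes (y k)
      rw [Sum.elim_inr, Sum.elim_inr, map_add, MvPowerSeries.constantCoeff_C,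
        MvPowerSeries.constantCoeff_X, add_zero, h1]

/-- the derivations -/
noncomputable def Ds (D : σ → Derivation ℂ L L) :
    σ ⊕ τ → Derivation ℂ (MvPowerSeries τ L) (MvPowerSeries τ L) :=
  Sum.elim (fun i => cD (D i)) (fun k => (MvPowerSeries.pderiv L k).restrictScalars ℂ)

theorem Ds_ph (D : σ → Derivation ℂ L L)
    (hD : ∀ i p, D i (φ p) = φ (MvPolynomial.pderiv i p)) (j : σ ⊕ τ)
    (p : MvPolynomial (σ ⊕ τ) ℂ) : Ds D j (ph φ y p) = ph φ y (MvPolynomial.pderiv j p) := by
  classical
  refine comm_of_X (ph φ y) (Ds D j) j (fun k => ?_) p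
  have e1 : ∀ i : σ, ph φ y (MvPolynomial.X (Sum.inl i))
      = MvPowerSeries.C (φ (MvPolynomial.X i)) := fun i => by rw [ph, MvPolynomial.aeval_X]; rfl
  have e2 : ∀ i : τ, ph φ y (MvPolynomial.X (Sum.inr i))
      = mc (MvPowerSeries.C (y i) + MvPowerSeries.X i) := fun i => by
    rw [ph, MvPolynomial.aeval_X, mc, map_add, MvPowerSeries.map_C, MvPowerSeries.map_X]; rfl
  have e3 : ∀ i : τ, ph φ y (MvPolynomial.X (Sum.inr i))
      = MvPowerSeries.C (algebraMap ℂ L (y i)) + MvPowerSeries.X i := fun i => by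
    rw [ph, MvPolynomial.aeval_X]; rfl
  rcases j with i | j <;> rcases k with l | l
  · rw [e1]
    change cD (D i) _ = _
    rw [cD_C, hD, MvPolynomial.pderiv_X, MvPolynomial.pderiv_X]
    by_cases h : l = i
    · subst h
      rw [Pi.single_eq_same, Pi.single_eq_same, map_one, map_one, map_one]
    · rw [Pi.single_eq_of_ne h, Pi.single_eq_of_ne (fun h' => h (Sum.inl_injective h')), map_zero,
        map_zero, map_zero]
  · rw [e2]
    change cD (D i) _ = _
    rw [cD_mc, MvPolynomial.pderiv_X_of_ne (by simp), map_zero]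
  · rw [e1]
    change MvPowerSeries.pderiv L j _ = _
    rw [MvPowerSeries.pderiv_C, MvPolynomial.pderiv_X_of_ne (by simp), map_zero]
  · rw [e3]
    change MvPowerSeries.pderiv L j _ = _
    rw [map_add, MvPowerSeries.pderiv_C, zero_add]
    by_cases h : l = j
    · subst h
      rw [MvPowerSeries.pderiv_X_self, MvPolynomial.pderiv_X_self, map_one]
    · rw [MvPowerSeries.pderiv_X_of_ne h,
        MvPolynomial.pderiv_X_of_ne (fun h' => h (Sum.inr_injective h')), map_zero]

end Main

theorem t_RES : S_RES := by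
  classical
  intro σ τ F G H s y hG hE L _ _ φ D Gi hD hGi U hX hN hF hdF
  have hu : IsUnit (sh y G) := by
    rw [MvPowerSeries.isUnit_iff_constantCoeff, cc_sh]
    exact isUnit_iff_ne_zero.2 hG
  obtain ⟨g, hg⟩ := hu.exists_right_inv
  have hmm : ∀ a b : MvPowerSeries τ ℂ, (mc (a * b) : MvPowerSeries τ L) = mc a * mc b :=
    fun a b => map_mul _ a b
  have hm1 : (mc 1 : MvPowerSeries τ L) = 1 := map_one _
  have hgg : (mc (sh y G) : MvPowerSeries τ L) * mc g = 1 := by rw [← hmm, hg, hm1]
  have hCC : (MvPowerSeries.C (φ F) : MvPowerSeries τ L) * MvPowerSeries.C Gi = 1 := by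
    rw [← map_mul, hGi, map_one]
  set P := MvPolynomial.rename (Sum.inl : σ → σ ⊕ τ) F with hP
  set Q := MvPolynomial.rename (Sum.inr : τ → σ ⊕ τ) G with hQ
  have d1 : ∀ i : σ, ph φ y (MvPolynomial.pderiv (Sum.inl i) (P * Q))
      = mc (sh y G) * MvPowerSeries.C (φ (MvPolynomial.pderiv i F)) := by
    intro i
    have h1 : MvPolynomial.pderiv (Sum.inl i) Q = 0 := by
      apply MvPolynomial.pderiv_eq_zero_of_notMem_vars
      intro h
      have h2 := MvPolynomial.vars_rename (Sum.inr : τ → σ ⊕ τ) G h
      simp at h2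
    rw [Derivation.leibniz, h1, smul_zero, zero_add, smul_eq_mul, hP,
      MvPolynomial.pderiv_rename Sum.inl_injective, map_mul, ph_inl, hQ, ph_inr]
  have d2 : ∀ k : τ, ph φ y (MvPolynomial.pderiv (Sum.inr k) (P * Q))
      = mc (sh y (MvPolynomial.pderiv k G)) * MvPowerSeries.C (φ F) := by
    intro k
    have h1 : MvPolynomial.pderiv (Sum.inr k) P = 0 := by
      apply MvPolynomial.pderiv_eq_zero_of_notMem_vars
      intro h
      have h2 := MvPolynomial.vars_rename (Sum.inl : σ → σ ⊕ τ) F h
      simp at h2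
    rw [Derivation.leibniz, h1, smul_zero, add_zero, smul_eq_mul, hQ,
      MvPolynomial.pderiv_rename Sum.inr_injective, map_mul, hP, ph_inl, ph_inr, mul_comm]
  have hD' := Ds_ph φ y D hD
  have key := hE (MvPowerSeries τ L) (ph φ y) (Ds D) (MvPowerSeries.C Gi * mc g) hD' ?_ (Us τ U)
    ?_ ?_ ?_ ?_
  · have h0 := key 0
    rw [MvPowerSeries.coeff_zero_eq_constantCoeff_apply, cc_ph] at h0
    exact h0
  · rw [map_mul, hP, hQ, ph_inl, ph_inr]
    linear_combination (MvPowerSeries.C (φ F) * MvPowerSeries.C Gi) * hgg + hCC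
  · rintro (i | k) x hx
    · rw [ph, MvPolynomial.aeval_X]
      intro n
      rw [Sum.elim_inl, MvPowerSeries.coeff_C_mul]
      exact hX i _ (hx n)
    · have h1 : ph φ y (MvPolynomial.X (Sum.inr k))
          = mc (MvPowerSeries.C (y k) + MvPowerSeries.X k) := by
        rw [ph, MvPolynomial.aeval_X, mc, map_add, MvPowerSeries.map_C, MvPowerSeries.map_X]; rfl
      rw [h1]
      exact mc_mul_mem _ hx
  · rintro (i | k) x hx
    · intro n
      have h1 := hN i _ (hx n)
      rw [nab_apply, hD' , d1]
      have h2 : mc (sh y G) * MvPowerSeries.C (φ (MvPolynomial.pderiv i F))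
          * (MvPowerSeries.C Gi * mc g)
          = (MvPowerSeries.C (φ (MvPolynomial.pderiv i F) * Gi) : MvPowerSeries τ L) := by
        rw [map_mul]
        linear_combination (MvPowerSeries.C (φ (MvPolynomial.pderiv i F))
          * MvPowerSeries.C Gi) * hgg
      rw [h2, algebraMap_eq, ← map_mul, map_add, MvPowerSeries.coeff_C_mul]
      rw [nab_apply, hD] at h1
      exact h1
    · rw [nab_apply, hD', d2]
      have h2 : algebraMap ℂ (MvPowerSeries τ L) s
          * (mc (sh y (MvPolynomial.pderiv k G)) * MvPowerSeries.C (φ F)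
          * (MvPowerSeries.C Gi * mc g)) * x
          = mc (MvPowerSeries.C s * sh y (MvPolynomial.pderiv k G) * g) * x := by
        have h3 : (mc (MvPowerSeries.C s) : MvPowerSeries τ L)
            = algebraMap ℂ (MvPowerSeries τ L) s := by
          rw [mc, MvPowerSeries.map_C, algebraMap_eq]
        rw [hmm, hmm, h3]
        linear_combination (algebraMap ℂ (MvPowerSeries τ L) s
          * mc (sh y (MvPolynomial.pderiv k G)) * mc g * x) * hCC
      rw [h2]
      refine (Us τ U).add_mem ?_ (mc_mul_mem _ hx)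
      intro n
      change MvPowerSeries.coeff n (MvPowerSeries.pderiv L k x) ∈ U
      rw [MvPowerSeries.coeff_pderiv]
      have h4 : MvPowerSeries.coeff (n + Finsupp.single k 1) x * ((n k : L) + 1)
          = ((n k : ℂ) + 1) • MvPowerSeries.coeff (n + Finsupp.single k 1) x := by
        rw [Algebra.smul_def, map_add, map_natCast, map_one, mul_comm]
      rw [h4]
      exact U.smul_mem _ (hx _)
  · rw [map_mul, hP, hQ, ph_inl, ph_inr, mul_comm]
    exact mc_mul_mem _ (C_mem hF)
  · rintro (i | k)
    · rw [d1]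
      exact mc_mul_mem _ (C_mem (hdF i))
    · rw [d2]
      exact mc_mul_mem _ (C_mem hF)

end Pool.Agent.L0h72.WT
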